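import Pool.Agent.TH949.TX.ESum

/-! One-sided bounds for character sums over primes on one sequence of windows. -/

set_option autoImplicit false

open Complex MeasureTheory Set Filter Topology

namespace Pool.Agent.TH949.DW

variable {q : ℕ} [NeZero q]

/-- the set of all primes -/
abbrev PP : Set ℕ := {p | p.Prime}

lemma conj_char (χ : DirichletCharacter ℂ q) (a : ZMod q) : (starRingEnd ℂ) (χ a) = χ⁻¹ a := by
  by_cases ha : IsUnit a
  · have h1 : ‖χ a‖ = 1 := DirichletCharacter.unit_norm_eq_one χ ha.unit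
    rw [MulChar.inv_apply_eq_inv']
    rw [Complex.inv_def, Complex.normSq_eq_norm_sq, h1]
    simp
  · rw [MulChar.map_nonunit _ ha, MulChar.map_nonunit _ ha]
    simp

lemma sum_im (S : Finset (DirichletCharacter ℂ q)) (hS : ∀ χ ∈ S, χ⁻¹ ∈ S) (a : ZMod q) :
    (∑ χ ∈ S, χ a).im = 0 := by
  have h1 : (starRingEnd ℂ) (∑ χ ∈ S, χ a) = ∑ χ ∈ S, χ a := by
    rw [map_sum]
    refine Finset.sum_nbij' (fun χ => χ⁻¹) (fun χ => χ⁻¹) hS hS ?_ ?_ ?_
    · intro χ _; simp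
    · intro χ _; simp
    · intro χ _
      exact conj_char χ a
  exact Complex.conj_eq_iff_im.1 h1

/-- the enumeration of a finite set of characters -/
noncomputable def en (S : Finset (DirichletCharacter ℂ q)) (p : ℕ) (i : Fin S.card) : ℂ :=
  (S.equivFin.symm i : DirichletCharacter ℂ q) (p : ZMod q)

omit [NeZero q] in
lemma sum_en (S : Finset (DirichletCharacter ℂ q)) (f : DirichletCharacter ℂ q → ℂ) :
    ∑ i : Fin S.card, f (S.equivFin.symm i : DirichletCharacter ℂ q) = ∑ χ ∈ S, f χ := by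
  rw [← Finset.sum_coe_sort S]
  exact Equiv.sum_comp S.equivFin.symm (fun χ : S => f χ)

omit [NeZero q] in
lemma prod_en (S : Finset (DirichletCharacter ℂ q)) (f : DirichletCharacter ℂ q → ℂ) :
    ∏ i : Fin S.card, f (S.equivFin.symm i : DirichletCharacter ℂ q) = ∏ χ ∈ S, f χ := by
  rw [← Finset.prod_coe_sort S]
  exact Equiv.prod_comp S.equivFin.symm (fun χ : S => f χ)

lemma en_im (S : Finset (DirichletCharacter ℂ q)) (hS : ∀ χ ∈ S, χ⁻¹ ∈ S) (p k : ℕ) :
    (∑ i, en S p i ^ (k + 1)).im = 0 := by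
  have h1 : ∑ i, en S p i ^ (k + 1) = ∑ χ ∈ S, χ ((p : ZMod q) ^ (k + 1)) := by
    rw [← sum_en S (fun χ => χ ((p : ZMod q) ^ (k + 1)))]
    refine Finset.sum_congr rfl fun i _ => ?_
    unfold en
    rw [map_pow]
  rw [h1]
  exact sum_im S hS _

lemma eprod (S : Finset (DirichletCharacter ℂ q)) {s : ℂ} (hs : 1 < s.re) :
    HasProd (fun p : PP => ∏ i, (1 - en S (p : ℕ) i * ((p : ℕ) : ℂ) ^ (-s))⁻¹)
      (∏ χ ∈ S, DirichletCharacter.LFunction χ s) := by
  have h1 : ∀ χ ∈ S, HasProd (fun p : Nat.Primes => (1 - χ (p : ℕ) * ((p : ℕ) : ℂ) ^ (-s))⁻¹)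
      (DirichletCharacter.LFunction χ s) := by
    intro χ _
    rw [DirichletCharacter.LFunction_eq_LSeries χ hs]
    exact DirichletCharacter.LSeries_eulerProduct_hasProd χ hs
  have h2 := hasProd_prod h1
  have h3 : (fun p : PP => ∏ i, (1 - en S (p : ℕ) i * ((p : ℕ) : ℂ) ^ (-s))⁻¹) =
      fun p : Nat.Primes => ∏ χ ∈ S, (1 - χ ((p : ℕ) : ZMod q) * ((p : ℕ) : ℂ) ^ (-s))⁻¹ := by
    funext p
    exact prod_en S (fun χ => (1 - χ ((p : ℕ) : ZMod q) * ((p : ℕ) : ℂ) ^ (-s))⁻¹)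
  rw [h3]
  exact h2

/-- general form -/
theorem gen (S : Finset (DirichletCharacter ℂ q)) (h1 : (1 : DirichletCharacter ℂ q) ∉ S)
    (hS : ∀ χ ∈ S, χ⁻¹ ∈ S) {c : ℝ} (hc : 1 / 2 ≤ c) {δ C : ℝ} (hδ : 0 < δ)
    (hW : ∃ᶠ X : ℝ in atTop, ∀ x : ℝ, X ^ (1 - δ) ≤ x → x ≤ X →
      -(C * x ^ c) ≤ ∑ p ∈ (Finset.range (⌊x⌋₊ + 1)).filter Nat.Prime,
        (∑ χ ∈ S, χ ((p : ℕ) : ZMod q)).re) :
    ∀ χ ∈ S, ∀ s : ℂ, c < s.re → DirichletCharacter.LFunction χ s ≠ 0 := by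
  classical
  have hd : Differentiable ℂ (fun s => ∏ χ ∈ S, DirichletCharacter.LFunction χ s) := by
    have := Differentiable.fun_finsetProd (𝕜 := ℂ) (u := S) (f := fun χ s => DirichletCharacter.LFunction χ s)
      (fun χ hχ => DirichletCharacter.differentiable_LFunction (fun h => h1 (h ▸ hχ)))
    exact this
  intro χ hχ s hs h0
  refine TX.zero_free_trace (T := PP) (α := en S) (fun p hp => hp) ?_ (fun p _ k => en_im S hS p k) hd
    (fun s hs => eprod S hs) hc hδ (C := C) ?_ hs ?_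
  · intro p _ i
    exact DirichletCharacter.norm_le_one _ _
  · refine hW.mono fun X hX x hx1 hx2 => ?_
    refine (hX x hx1 hx2).trans (le_of_eq ?_)
    refine Finset.sum_congr (by ext p; simp) fun p _ => ?_
    congr 1
    exact (sum_en S (fun χ => χ ((p : ℕ) : ZMod q))).symm
  · exact Finset.prod_eq_zero hχ h0

end Pool.Agent.TH949.DW
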